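import Mathlib
import Pool.Agent.V1168.EF.SplitDefs
import Pool.Agent.V1168.EV.SplitDefs

/-!
# Products of two abelian varieties, tensor constructions on a sum of motives: definitions
-/

set_option autoImplicit false

namespace Pool.Agent.V1168.AB

open NumberField Module IntermediateField Pool.Agent.Y137.MV Pool.Agent.Y137.SL
open Pool.Agent.V1168
open scoped TensorProduct

section

/-- The tensor power `W^{⊗ b}`. -/
def TPow (k : Type) [Field k] (W : Type) [AddCommGroup W] [Module k W] (b : ℕ) : Type :=
  ⨂[k] _ : Fin b, W

variable {k : Type} [Field k] {W : Type} [AddCommGroup W] [Module k W] {Γ : Type} [Group Γ]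

noncomputable instance (b : ℕ) : AddCommGroup (TPow k W b) :=
  inferInstanceAs (AddCommGroup (⨂[k] _ : Fin b, W))

noncomputable instance (b : ℕ) : Module k (TPow k W b) :=
  inferInstanceAs (Module k (⨂[k] _ : Fin b, W))

instance (b : ℕ) [FiniteDimensional k W] : FiniteDimensional k (TPow k W b) :=
  inferInstanceAs (Module.Finite k (⨂[k] _ : Fin b, W))

/-- The representation on the tensor power `W^{⊗ b}`. -/
noncomputable def tpow (σ : Representation k Γ W) (b : ℕ) : Representation k Γ (TPow k W b) :=
  (PiTensorProduct.mapMonoidHom (R := k) (s := fun _ : Fin b => W)).comp (Pi.monoidHom fun _ => σ)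

/-- The twist of a representation with the `c`-th power of the character `χ`. -/
noncomputable def twist (χ : Γ →* k) (c : ℕ) (τ : Representation k Γ W) :
    Representation k Γ W where
  toFun s := χ s ^ c • τ s
  map_one' := by simp
  map_mul' s t := by rw [map_mul, map_mul, mul_pow, smul_mul_smul_comm]

/-- The Galois representation on `H^1(B)^{⊗ b}(c)`, where `W` is the Tate module of the abelian
variety `B` and `χ` the cyclotomic character. The twisted cohomology groups `H^b(B ^ n)(c)` are direct
sums of subrepresentations of it. -/
noncomputable def cohomologyPower (σ : Representation k Γ W) (χ : Γ →* k) (b c : ℕ) :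
    Representation k Γ (TPow k (Dual k W) b) :=
  twist χ c (tpow σ.dual b)

/-- The representation on `Hom (W^{⊗ b}, W^{⊗ c})`, the typical tensor construction on `W`. -/
noncomputable def tensorConstruction (σ : Representation k Γ W) (b c : ℕ) :
    Representation k Γ (TPow k W b →ₗ[k] TPow k W c) :=
  Representation.linHom (tpow σ b) (tpow σ c)

/-- If the eigenvalues of `γ` on `M` are roots of a rational polynomial, not zero, all of whose
complex roots have the property `P`, then the classes on `A ^ r` with values in `M` split. -/
def SplitsFor {V M : Type} [AddCommGroup V] [Module k V] [AddCommGroup M] [Module k M]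
    [CharZero k] (P : ℂ → Prop) (ρ : Representation k Γ V) (χ : Γ →* k) (γ : Γ)
    (τ : Representation k Γ M) : Prop :=
  ∀ f : Polynomial ℚ, f ≠ 0 → Polynomial.aeval (τ γ) (f.map (algebraMap ℚ k)) = 0 →
    (∀ α : ℂ, Polynomial.aeval α f = 0 → P α) → ClassesSplit ρ χ τ

end

/-- The Tate classes on the products `A ^ r × B ^ n` of abelian varieties are generated by the divisor
classes on `A ^ r` and the Tate classes on `B ^ n`, whenever `A` has a Frobenius element `γ` at a place
with `p ^ a` elements in the residue field with the characteristic polynomial `∏ i, minpoly (π i)` and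
the eigenvalues of `γ` on `H^1(B)^{⊗ b}(c)` are roots of a rational polynomial all of whose complex
roots have the property `P`. Here `V` and `W` are the Tate modules of `A` and `B`. -/
def AbelianClassesSplit (P : ℂ → Prop) (p a : ℕ) {I : Type} [Fintype I]
    (K : I → Type) [∀ i, Field (K i)] [∀ i, NumberField (K i)]
    (π : ∀ i, K i) : Prop :=
  ∀ (k : Type) [Field k] [CharZero k] (V : Type) [AddCommGroup V] [Module k V]
    [FiniteDimensional k V] (W : Type) [AddCommGroup W] [Module k W] [FiniteDimensional k W]
    (Γ : Type) [Group Γ] (ρ : Representation k Γ V) (σ : Representation k Γ W) (χ : Γ →* k)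
    (γ : Γ), IsPolarised ρ χ γ p a π → ∀ b c : ℕ,
      SplitsFor P ρ χ γ (cohomologyPower σ χ b c)

/-- The same for the tensor constructions `Hom (W^{⊗ b}, W^{⊗ c})` on the realisation `W` of a
motive. -/
def MotivicClassesSplit (P : ℂ → Prop) (p a : ℕ) {I : Type} [Fintype I]
    (K : I → Type) [∀ i, Field (K i)] [∀ i, NumberField (K i)]
    (π : ∀ i, K i) : Prop :=
  ∀ (k : Type) [Field k] [CharZero k] (V : Type) [AddCommGroup V] [Module k V]
    [FiniteDimensional k V] (W : Type) [AddCommGroup W] [Module k W] [FiniteDimensional k W]
    (Γ : Type) [Group Γ] (ρ : Representation k Γ V) (σ : Representation k Γ W) (χ : Γ →* k)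
    (γ : Γ), IsPolarised ρ χ γ p a π → ∀ b c : ℕ,
      SplitsFor P ρ χ γ (tensorConstruction σ b c)

end Pool.Agent.V1168.AB
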