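import Mathlib
import Pool.Agent.V1168.AB.Defs
import Pool.Agent.V1168.EF.Split
import Pool.Agent.V1168.EF.Both
import Pool.Agent.V1168.EV.SplitMain

/-!
# Products of two abelian varieties, tensor constructions on a sum of motives
-/

set_option autoImplicit false

namespace Pool.Agent.V1168.AB

open NumberField Module IntermediateField Pool.Agent.Y137.MV Pool.Agent.Y137.SL
open Pool.Agent.V1168
open scoped TensorProduct

theorem abelian_of_split {p : ℕ} [Fact p.Prime] {Ω : Finset ℂ} {a : ℕ} {I : Type} [Fintype I]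
    {K : I → Type} [∀ i, Field (K i)] [∀ i, NumberField (K i)] [∀ i, IsCMField (K i)]
    {π : ∀ i, K i} (h : EF.TateClassesSplit (p := p) Ω a K π) :
    AbelianClassesSplit (EF.Generated p Ω) p a K π := by
  intro k _ _ V _ _ _ W _ _ _ Γ _ ρ σ χ γ hp b c f hf hf0 hP
  exact h k V (TPow k (Dual k W) b) Γ ρ (cohomologyPower σ χ b c) χ γ hp f hf hf0 hP

theorem motivic_of_split {p : ℕ} [Fact p.Prime] {Ω : Finset ℂ} {a : ℕ} {I : Type} [Fintype I]
    {K : I → Type} [∀ i, Field (K i)] [∀ i, NumberField (K i)] [∀ i, IsCMField (K i)]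
    {π : ∀ i, K i} (h : EF.TateClassesSplit (p := p) Ω a K π) :
    MotivicClassesSplit (EF.Generated p Ω) p a K π := by
  intro k _ _ V _ _ _ W _ _ _ Γ _ ρ σ χ γ hp b c f hf hf0 hP
  exact h k V (TPow k W b →ₗ[k] TPow k W c) Γ ρ (tensorConstruction σ b c) χ γ hp f hf hf0 hP

theorem abelian_of_split' {p : ℕ} [Fact p.Prime] {Ω : Finset ℂ} {a : ℕ} {I : Type} [Fintype I]
    {K : I → Type} [∀ i, Field (K i)] [∀ i, NumberField (K i)] [∀ i, IsCMField (K i)]
    {π : ∀ i, K i} (h : EV.TateClassesSplit (p := p) Ω a K π) :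
    AbelianClassesSplit (EV.From p Ω) p a K π := by
  intro k _ _ V _ _ _ W _ _ _ Γ _ ρ σ χ γ hp b c f hf hf0 hP
  exact h k V (TPow k (Dual k W) b) Γ ρ (cohomologyPower σ χ b c) χ γ hp f hf hf0 hP

end Pool.Agent.V1168.AB
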